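import Mathlib
import Pool.Agent.TH525.AG.AngMean

/-! # The number of closed orbits on average: a sharp bound, linear in the degree

For every planar polynomial system of degree at most `n` and every region, star-like about the
origin, in which the flow turns counter-clockwise about the origin, the number of closed orbits in
the region of the members of the one-parameter family `X + s θ' p` (`θ'` the angular velocity of
`X`, so that `θ'` is unchanged and `r' / r` changes by `s θ'`) has mean at most `n / 2` over the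
range of the parameters `s` for which closed orbits may exist; at most `(n - 1) / 2` if the origin is
an equilibrium, and this is attained for every odd `n`. -/

open Set MeasureTheory
open scoped ENNReal

namespace Pool.Agent.Results.MP_95e7ec_an.AngularLinearMean

/-- The value of a polynomial at a point of the plane. -/
noncomputable def val (F : MvPolynomial (Fin 2) ℝ) (p : ℝ × ℝ) : ℝ :=
  MvPolynomial.eval ![p.1, p.2] F

/-- `x f + y g`; this is `r r'` along the orbits of `x' = f`, `y' = g`. -/
noncomputable def radial (f g : MvPolynomial (Fin 2) ℝ) (p : ℝ × ℝ) : ℝ :=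
  p.1 * val f p + p.2 * val g p

/-- `x g - y f`; this is `r ^ 2 θ'` along the orbits of `x' = f`, `y' = g`. -/
noncomputable def angular (f g : MvPolynomial (Fin 2) ℝ) (p : ℝ × ℝ) : ℝ :=
  p.1 * val g p - p.2 * val f p

/-- The vector field `X + s θ' p`, where `X = (f, g)` and `θ' = angular f g / r ^ 2` is the angular
velocity of `X` about the origin. The member `s = 0` is `X`. -/
noncomputable def family (f g : MvPolynomial (Fin 2) ℝ) (s : ℝ) (p : ℝ × ℝ) : ℝ × ℝ :=
  (val f p + s * (angular f g p / (p.1 ^ 2 + p.2 ^ 2)) * p.1,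
    val g p + s * (angular f g p / (p.1 ^ 2 + p.2 ^ 2)) * p.2)

/-- The set of the closed orbits (the images of the nonconstant periodic solutions) of the vector
field `X` which are contained in `A`. -/
def closedOrbitsIn (X : ℝ × ℝ → ℝ × ℝ) (A : Set (ℝ × ℝ)) : Set (Set (ℝ × ℝ)) :=
  {C | (∃ γ : ℝ → ℝ × ℝ, ∃ T : ℝ, 0 < T ∧ (∀ t : ℝ, HasDerivAt γ (X (γ t)) t) ∧
    (∀ t : ℝ, γ (t + T) = γ t) ∧ (∃ a b : ℝ, γ a ≠ γ b) ∧ C = range γ) ∧ C ⊆ A}

/-- The closed disc of radius `R` about the origin, without the origin. -/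
def puncturedDisc (R : ℝ) : Set (ℝ × ℝ) :=
  {p | 0 < p.1 ^ 2 + p.2 ^ 2 ∧ p.1 ^ 2 + p.2 ^ 2 ≤ R ^ 2}

/-- **A sharp bound, linear in the degree, for the mean number of closed orbits.**

(i) Let `f, g` be polynomials of degree at most `n` and let `A` be a set which meets every ray from
the origin in an interval, such that on `A` the flow turns counter-clockwise about the origin
(`x g - y f > 0`) and `m ≤ r' / (r θ') ≤ M`. Then `X + s θ' p` has no closed orbit in `A` unless
`- M ≤ s ≤ - m`, and the number of its closed orbits in `A` has a measurable majorant `G` with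
`∫ G ≤ (n / 2) (M - m)`, and with `∫ G ≤ ((n - 1) / 2) (M - m)` if the origin is an equilibrium.

(ii) The last bound is attained for every odd `n = 2 k + 1`: there are `f, g` of degree at most `n`
vanishing at the origin, with `m = - 1`, `M = 1` on a punctured disc `A`, such that there are at
least `k = (n - 1) / 2` closed orbits in `A` for every `s` with `- 1 < s < 1`. -/
theorem result :
    (∀ (n : ℕ) (f g : MvPolynomial (Fin 2) ℝ), f.totalDegree ≤ n → g.totalDegree ≤ n →
      ∀ (A : Set (ℝ × ℝ)) (m M : ℝ),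
        (∀ t : ℝ, {r : ℝ | 0 < r ∧ (r * Real.cos t, r * Real.sin t) ∈ A}.OrdConnected) →
        (∀ p ∈ A, 0 < angular f g p ∧ m ≤ radial f g p / angular f g p ∧
          radial f g p / angular f g p ≤ M) →
        (∀ s ∉ Icc (-M) (-m), closedOrbitsIn (family f g s) A = ∅) ∧
        ∃ G : ℝ → ℝ≥0∞, Measurable G ∧
          (∀ s, ((closedOrbitsIn (family f g s) A).encard : ℝ≥0∞) ≤ G s) ∧
          2 * ∫⁻ s, G s ≤ n * ENNReal.ofReal (M - m) ∧
          (val f 0 = 0 → val g 0 = 0 → 2 * ∫⁻ s, G s ≤ (n - 1 : ℕ) * ENNReal.ofReal (M - m))) ∧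
    (∀ k : ℕ, 1 ≤ k → ∀ R : ℝ, 0 < R → ∃ f g : MvPolynomial (Fin 2) ℝ,
      f.totalDegree ≤ 2 * k + 1 ∧ g.totalDegree ≤ 2 * k + 1 ∧ val f 0 = 0 ∧ val g 0 = 0 ∧
      (∀ p ∈ puncturedDisc R, 0 < angular f g p ∧ -1 ≤ radial f g p / angular f g p ∧
        radial f g p / angular f g p ≤ 1) ∧
      ∀ s ∈ Ioo (-1 : ℝ) 1,
        (k : ℕ∞) ≤ (closedOrbitsIn (family f g s) (puncturedDisc R)).encard) := by
  refine ⟨fun n f g hf hg A m M hA h => ⟨fun s hs => ?_, ?_⟩, fun k hk R hR => ?_⟩
  · exact TH525.AG.ang_empty (TH525.AG.reg_ord hA) (fun p hp => (h p hp).1)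
      (fun p hp => (h p hp).2) hs
  · exact TH525.AG.ang_mean hf hg hA (fun p hp => (h p hp).1) (fun p hp => (h p hp).2)
  · exact TH525.AG.ang_sharp hk hR

end Pool.Agent.Results.MP_95e7ec_an.AngularLinearMean
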