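import Pool.Agent.TH275.KL.Mean
import Pool.Agent.TH275.RF.Laws

/-! # The mean number of closed orbits is at most the mean number of equilibria, up to the cube of a
logarithm

For random planar polynomial systems of degree at most `n ≥ 2` with independent coefficient vectors
of arbitrary rotation invariant laws with bounded densities and second moments, the expected number of
all closed orbits in the plane is at most `10 ^ 13 * (1 + log (n D W)) ^ 3` times one plus the expected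
number of equilibria. In particular it is at most `2 * 10 ^ 13 * n ^ 2 * (1 + log (n D W)) ^ 3`. -/

open Set MeasureTheory
open scoped ENNReal

namespace Pool.Agent.Results.MP_95e7ec_an.MeanQuadraticGrowth

/-- `S` is a set of exponents `(i,j)` with `i + j ≤ n` which contains the three corners `(0,0)`,
`(n,0)`, `(0,n)` and the points of the edges at distance one and two from the corners. -/
def Admissible (n : ℕ) (S : Finset (ℕ × ℕ)) : Prop :=
  (∀ m ∈ S, m.1 + m.2 ≤ n) ∧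
    ((0, 0) ∈ S ∧ (1, 0) ∈ S ∧ (2, 0) ∈ S ∧ (0, 1) ∈ S ∧ (0, 2) ∈ S) ∧
    ((n, 0) ∈ S ∧ (n - 1, 0) ∈ S ∧ (n - 2, 0) ∈ S ∧ (n - 1, 1) ∈ S ∧ (n - 2, 2) ∈ S) ∧
    ((0, n) ∈ S ∧ (0, n - 1) ∈ S ∧ (0, n - 2) ∈ S ∧ (1, n - 1) ∈ S ∧ (2, n - 2) ∈ S)

/-- the exponents `(i,j)` of all monomials `x^i y^j` of degree at most `n` -/
def exponents (n : ℕ) : Finset (ℕ × ℕ) :=
  (Finset.range (n + 1) ×ˢ Finset.range (n + 1)).filter fun m => m.1 + m.2 ≤ n

/-- The vector field `(∑ a_{ij} x^i y^j, ∑ b_{ij} x^i y^j)`, `(i,j) ∈ S`, where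
`c (i,j) = (a_{ij}, b_{ij})`. -/
def field (S : Finset (ℕ × ℕ)) (c : S → ℝ × ℝ) (z : ℝ × ℝ) : ℝ × ℝ :=
  (∑ m : S, (c m).1 * (z.1 ^ m.1.1 * z.2 ^ m.1.2), ∑ m : S, (c m).2 * (z.1 ^ m.1.1 * z.2 ^ m.1.2))

/-- the number of all nonconstant closed orbits (limit cycles or not) in the plane `ℝ²` -/
noncomputable def closedOrbits (S : Finset (ℕ × ℕ)) (c : S → ℝ × ℝ) : ℝ≥0∞ :=
  (({C : Set (ℝ × ℝ) | ∃ γ : ℝ → ℝ × ℝ, ∃ T : ℝ, 0 < T ∧
    (∀ t : ℝ, HasDerivAt γ (field S c (γ t)) t) ∧ (∀ t : ℝ, γ (t + T) = γ t) ∧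
    (∃ s t : ℝ, γ s ≠ γ t) ∧ C = Set.range γ}.encard : ℕ∞) : ℝ≥0∞)

/-- the number of equilibria in the plane -/
noncomputable def equilibria (S : Finset (ℕ × ℕ)) (c : S → ℝ × ℝ) : ℝ≥0∞ :=
  (({z : ℝ × ℝ | field S c z = 0}.encard : ℕ∞) : ℝ≥0∞)

/-- the rotation of the plane by the angle `α` -/
noncomputable def rotation (α : ℝ) (v : ℝ × ℝ) : ℝ × ℝ :=
  (Real.cos α * v.1 - Real.sin α * v.2, Real.sin α * v.1 + Real.cos α * v.2)

lemma field_eq (S : Finset (ℕ × ℕ)) (c : S → ℝ × ℝ) : field S c = H709R2.fld c := by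
  funext p
  unfold field H709R2.fld
  ext
  · simp only [Prod.fst_sum, Prod.smul_fst, smul_eq_mul]
    exact Finset.sum_congr rfl fun m _ => mul_comm _ _
  · simp only [Prod.snd_sum, Prod.smul_snd, smul_eq_mul]
    exact Finset.sum_congr rfl fun m _ => mul_comm _ _

lemma closedOrbits_eq (S : Finset (ℕ × ℕ)) (c : S → ℝ × ℝ) : closedOrbits S c = H709R2.NP c := by
  unfold H709R2.NP closedOrbits H709R2.ClosedOrbit
  rw [field_eq]

lemma equilibria_eq (S : Finset (ℕ × ℕ)) (c : S → ℝ × ℝ) : equilibria S c = W960.HR.NZ c := by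
  unfold equilibria W960.HR.NZ
  rw [field_eq]

lemma admissible_all {n : ℕ} (hn : 2 ≤ n) : Admissible n (exponents n) := by
  have h : ∀ i j : ℕ, i + j ≤ n → (i, j) ∈ exponents n := by
    intro i j hij
    unfold exponents
    rw [Finset.mem_filter, Finset.mem_product, Finset.mem_range, Finset.mem_range]
    exact ⟨⟨by omega, by omega⟩, hij⟩
  refine ⟨fun m hm => ?_, ?_, ?_, ?_⟩
  · unfold exponents at hm
    exact (Finset.mem_filter.1 hm).2
  all_goals
    refine ⟨?_, ?_, ?_, ?_, ?_⟩ <;> exact h _ _ (by omega)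

/-- Let `S` be an admissible set of exponents of degree at most `n` (for `n ≥ 2`, for example all
exponents of degree at most `n`), and let the coefficient vectors `c (i,j) = (a_{ij}, b_{ij})`,
`(i,j) ∈ S`, be independent with laws `μ (i,j)` of density at most `D` and second moment at most `W`,
where `D, W ≥ 1`. Let `E` be the expected number of equilibria in the plane. Then

* `E ≤ min (n², 2 D W m³)`, where `m` is the number of elements of `S`;
* the number of closed orbits in the plane is a Borel function of the coefficients, and the integral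
  over all angles `α` in `(0, π)` of the expected number of closed orbits of the field rotated by `α`
  is at most `2.5 * 10 ^ 13 * (1 + log (n D W)) ^ 3 * (1 + E)`;
* if all the laws are invariant under rotations, the expected number of closed orbits is at most
  `10 ^ 13 * (1 + log (n D W)) ^ 3 * (1 + E)`, hence at most
  `10 ^ 13 * (1 + log (n D W)) ^ 3 * (1 + min (n², 2 D W m³))`. -/
theorem result (n : ℕ) (S : Finset (ℕ × ℕ)) (hS : Admissible n S) (μ : S → Measure (ℝ × ℝ))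
    [∀ m, IsProbabilityMeasure (μ m)] (D W : ℝ) (hD1 : 1 ≤ D) (hW1 : 1 ≤ W)
    (hD : ∀ m (B : Set (ℝ × ℝ)), μ m B ≤ ENNReal.ofReal D * volume B)
    (hW : ∀ m, ∫⁻ w, ENNReal.ofReal (w.1 ^ 2 + w.2 ^ 2) ∂μ m ≤ ENNReal.ofReal W) :
    ∫⁻ c, equilibria S c ∂Measure.pi μ ≤
      ENNReal.ofReal (min ((n:ℝ) ^ 2) (2 * D * W * S.card ^ 3)) ∧
    Measurable (closedOrbits S) ∧
    ∫⁻ c, (∫⁻ α in Ioo 0 Real.pi, closedOrbits S (fun m => rotation α (c m))) ∂Measure.pi μ ≤
      ENNReal.ofReal (25 * 10 ^ 12 * (1 + Real.log (n * D * W)) ^ 3) *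
        (1 + ∫⁻ c, equilibria S c ∂Measure.pi μ) ∧
    ((∀ m α, (μ m).map (rotation α) = μ m) →
      ∫⁻ c, closedOrbits S c ∂Measure.pi μ ≤
        ENNReal.ofReal (10 ^ 13 * (1 + Real.log (n * D * W)) ^ 3) *
          (1 + ∫⁻ c, equilibria S c ∂Measure.pi μ) ∧
      ∫⁻ c, closedOrbits S c ∂Measure.pi μ ≤
        ENNReal.ofReal (10 ^ 13 * (1 + Real.log (n * D * W)) ^ 3 *
          (1 + min ((n:ℝ) ^ 2) (2 * D * W * S.card ^ 3)))) := by
  obtain ⟨h0, ⟨a0, a1, a2, a3, a4⟩, ⟨b0, b1, b2, b3, b4⟩, ⟨c0, c1, c2, c3, c4⟩⟩ := hS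
  have hF : TH275.KL.Full2 n S := ⟨⟨h0, a0, a1, a3, b0, b1, b3, c0, c1, c3⟩, a2, a4, b2, b4, c2, c4⟩
  have hc : closedOrbits S = H709R2.NP := funext fun c => closedOrbits_eq S c
  have he : equilibria S = W960.HR.NZ := funext fun c => equilibria_eq S c
  rw [hc, he]
  have hz := TH275.RF.lintegral_NZ_min hF.toFull μ hD1 hW1 hD hW
  have hl : 0 ≤ Real.log (n * D * W) := Real.log_nonneg
    (one_le_mul_of_one_le_of_one_le (one_le_mul_of_one_le_of_one_le
      (by exact_mod_cast hF.one_le) hD1) hW1)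
  refine ⟨hz, H709R2.measurable_NP, TH275.KL.lintegral_phiK hF μ hD1 hW1 hD hW, fun hR => ?_⟩
  have h1 := TH275.KL.expectedK hF μ hD1 hW1 hD hW hR
  refine ⟨h1, h1.trans ?_⟩
  have h2 := TH275.RF.comb_le (L := 10 ^ 13 * (1 + Real.log (n * D * W)) ^ 3) (by positivity)
    (k := 1) (le_min (by positivity) (by positivity)) hz
  simpa only [Nat.cast_one, one_mul] using h2

end Pool.Agent.Results.MP_95e7ec_an.MeanQuadraticGrowth
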