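import Pool.Agent.TH275.RF.Laws

/-! # Random polynomial vector fields with few monomials: polynomial bounds in the number of
monomials, logarithmic in the degree

For random planar polynomial systems with `m` monomials of degree at most `n` the expected number of
equilibria is at most `2 D W m ^ 3`, whatever the degree, and the expected number of all closed orbits
in the plane is at most `4 * 10 ^ 8 * D W m ^ 4 * (1 + log (n D W))`. -/

open Set MeasureTheory
open scoped ENNReal

namespace Pool.Agent.Results.MP_95e7ec_an.RandomFewnomial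

/-- `S` is a set of exponents `(i,j)` with `i + j ≤ n` which contains the three corners and their
neighbours. The number of elements of `S` may be as small as nine, for every `n`. -/
def Admissible (n : ℕ) (S : Finset (ℕ × ℕ)) : Prop :=
  (∀ m ∈ S, m.1 + m.2 ≤ n) ∧ (0, 0) ∈ S ∧ (1, 0) ∈ S ∧ (0, 1) ∈ S ∧
    (n, 0) ∈ S ∧ (n - 1, 0) ∈ S ∧ (n - 1, 1) ∈ S ∧ (0, n) ∈ S ∧ (0, n - 1) ∈ S ∧ (1, n - 1) ∈ S

/-- The vector field `(∑ a_{ij} x^i y^j, ∑ b_{ij} x^i y^j)`, `(i,j) ∈ S`, where
`c (i,j) = (a_{ij}, b_{ij})`. -/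
def field (S : Finset (ℕ × ℕ)) (c : S → ℝ × ℝ) (z : ℝ × ℝ) : ℝ × ℝ :=
  (∑ m : S, (c m).1 * (z.1 ^ m.1.1 * z.2 ^ m.1.2), ∑ m : S, (c m).2 * (z.1 ^ m.1.1 * z.2 ^ m.1.2))

/-- the number of all nonconstant closed orbits (limit cycles or not) in the plane `ℝ²` -/
noncomputable def closedOrbits (S : Finset (ℕ × ℕ)) (c : S → ℝ × ℝ) : ℝ≥0∞ :=
  (({C : Set (ℝ × ℝ) | ∃ γ : ℝ → ℝ × ℝ, ∃ T : ℝ, 0 < T ∧
    (∀ t : ℝ, HasDerivAt γ (field S c (γ t)) t) ∧ (∀ t : ℝ, γ (t + T) = γ t) ∧
    (∃ s t : ℝ, γ s ≠ γ t) ∧ C = Set.range γ}.encard : ℕ∞) : ℝ≥0∞)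

/-- the number of equilibria in the plane -/
noncomputable def equilibria (S : Finset (ℕ × ℕ)) (c : S → ℝ × ℝ) : ℝ≥0∞ :=
  (({z : ℝ × ℝ | field S c z = 0}.encard : ℕ∞) : ℝ≥0∞)

/-- the rotation of the plane by the angle `α` -/
noncomputable def rotation (α : ℝ) (v : ℝ × ℝ) : ℝ × ℝ :=
  (Real.cos α * v.1 - Real.sin α * v.2, Real.sin α * v.1 + Real.cos α * v.2)

/-- the larger one of the numbers of exponents of `x` and of exponents of `y` which occur in `S` -/
def exps (S : Finset (ℕ × ℕ)) : ℕ := max (S.image Prod.fst).card (S.image Prod.snd).card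

/-- `1 + min (n, 2 e - 1) * min (n², 2 D W m³)`, where `e = exps S ≤ m` and `m` is the number of
monomials -/
noncomputable def size (n : ℕ) (S : Finset (ℕ × ℕ)) (D W : ℝ) : ℝ :=
  1 + ((min n (2 * exps S - 1) : ℕ) : ℝ) * min ((n : ℝ) ^ 2) (2 * D * W * S.card ^ 3)

lemma field_eq (S : Finset (ℕ × ℕ)) (c : S → ℝ × ℝ) : field S c = H709R2.fld c := by
  funext p
  unfold field H709R2.fld
  ext
  · simp only [Prod.fst_sum, Prod.smul_fst, smul_eq_mul]
    exact Finset.sum_congr rfl fun m _ => mul_comm _ _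
  · simp only [Prod.snd_sum, Prod.smul_snd, smul_eq_mul]
    exact Finset.sum_congr rfl fun m _ => mul_comm _ _

lemma closedOrbits_eq (S : Finset (ℕ × ℕ)) (c : S → ℝ × ℝ) : closedOrbits S c = H709R2.NP c := by
  unfold H709R2.NP closedOrbits H709R2.ClosedOrbit
  rw [field_eq]

lemma equilibria_eq (S : Finset (ℕ × ℕ)) (c : S → ℝ × ℝ) : equilibria S c = W960.HR.NZ c := by
  unfold equilibria W960.HR.NZ
  rw [field_eq]

/-- Let `S` be an admissible set of `m` exponents of degree at most `n`, and let the coefficient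
vectors `c (i,j) = (a_{ij}, b_{ij})`, `(i,j) ∈ S`, be independent with laws `μ (i,j)` of density at
most `D` and second moment at most `W`, where `D, W ≥ 1`. Then

* the expected number of equilibria in the plane is at most `2 D W m ^ 3`;
* the number of closed orbits in the plane is a Borel function of the coefficients, and the integral
  over all angles `α` in `(0, π)` of the expected number of closed orbits of the field rotated by `α`
  is at most `2.2 * 10 ^ 8 * (1 + log (n D W)) * size n S D W`;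
* if all the laws are invariant under rotations, the expected number of closed orbits is at most
  `8 * 10 ^ 7 * (1 + log (n D W)) * size n S D W`, where
  `size n S D W = 1 + min (n, 2 e - 1) * min (n ^ 2, 2 D W m ^ 3) ≤ 5 D W m ^ 4`. -/
theorem result (n : ℕ) (S : Finset (ℕ × ℕ)) (hS : Admissible n S) (μ : S → Measure (ℝ × ℝ))
    [∀ m, IsProbabilityMeasure (μ m)] (D W : ℝ) (hD1 : 1 ≤ D) (hW1 : 1 ≤ W)
    (hD : ∀ m (B : Set (ℝ × ℝ)), μ m B ≤ ENNReal.ofReal D * volume B)
    (hW : ∀ m, ∫⁻ w, ENNReal.ofReal (w.1 ^ 2 + w.2 ^ 2) ∂μ m ≤ ENNReal.ofReal W) :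
    ∫⁻ c, equilibria S c ∂Measure.pi μ ≤ ENNReal.ofReal (2 * D * W * S.card ^ 3) ∧
    Measurable (closedOrbits S) ∧
    ∫⁻ c, (∫⁻ α in Ioo 0 Real.pi, closedOrbits S (fun m => rotation α (c m))) ∂Measure.pi μ ≤
      ENNReal.ofReal (220000000 * (1 + Real.log (n * D * W)) * size n S D W) ∧
    ((∀ m α, (μ m).map (rotation α) = μ m) →
      ∫⁻ c, closedOrbits S c ∂Measure.pi μ ≤
        ENNReal.ofReal (80000000 * (1 + Real.log (n * D * W)) * size n S D W)) ∧
    size n S D W ≤ 5 * (D * W * S.card ^ 4) := by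
  obtain ⟨h0, h1, h2, h3, h4, h5, h6, h7, h8, h9⟩ := hS
  have hF : W960.HR.Full n S := ⟨h0, h1, h2, h3, h4, h5, h6, h7, h8, h9⟩
  have hc : closedOrbits S = H709R2.NP := funext fun c => closedOrbits_eq S c
  have he : equilibria S = W960.HR.NZ := funext fun c => equilibria_eq S c
  rw [hc, he]
  exact ⟨TH275.RF.lintegral_NZ_cube hF.h00 μ (by linarith) (by linarith) hD hW,
    H709R2.measurable_NP, TH275.RF.sparse_phi hF μ hD1 hW1 hD hW,
    fun hR => TH275.RF.sparse_expected hF μ hD1 hW1 hD hW hR, TH275.RF.simple_le hF hD1 hW1⟩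

end Pool.Agent.Results.MP_95e7ec_an.RandomFewnomial
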