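import Pool.Agent.TH234.PH.Fam

/-! # The total hyperbolicity of the closed orbits in a rotating region

For a single polynomial system of degree at most `n` the sum of the absolute values of the
characteristic exponents of all closed orbits in a region in which the polar angle increases is at
most `(2 n + 1)` times the integral over the angle of the largest shear on the ray. So the number of
the closed orbits whose exponent is at least `ε` in absolute value grows at most linearly with the
degree. -/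

open Set MeasureTheory

namespace Pool.Agent.Results.MP_95e7ec_an.TotalHyperbolicity

open Pool.Agent.TH234.PH

/-- `x P + y Q = r r'` -/
noncomputable def radial (P Q : MvPolynomial (Fin 2) ℝ) (z : ℝ × ℝ) : ℝ :=
  z.1 * MvPolynomial.eval ![z.1, z.2] P + z.2 * MvPolynomial.eval ![z.1, z.2] Q

/-- `x Q - y P = r² θ'` -/
noncomputable def angular (P Q : MvPolynomial (Fin 2) ℝ) (z : ℝ × ℝ) : ℝ :=
  z.1 * MvPolynomial.eval ![z.1, z.2] Q - z.2 * MvPolynomial.eval ![z.1, z.2] P

/-- the shear: the derivative of `d (log r) / d θ = radial / angular` with respect to `log r` along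
the ray through `z` -/
noncomputable def shear (P Q : MvPolynomial (Fin 2) ℝ) (z : ℝ × ℝ) : ℝ :=
  deriv (fun s : ℝ => radial P Q (s * z.1, s * z.2) / angular P Q (s * z.1, s * z.2)) 1

/-- `γ` is a closed orbit of the system `x' = P, y' = Q` with minimal period `T`. -/
structure ClosedOrbit (P Q : MvPolynomial (Fin 2) ℝ) (γ : ℝ → ℝ × ℝ) (T : ℝ) : Prop where
  pos : 0 < T
  solution : ∀ t : ℝ, HasDerivAt γ (MvPolynomial.eval ![(γ t).1, (γ t).2] P,
    MvPolynomial.eval ![(γ t).1, (γ t).2] Q) t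
  periodic : ∀ t : ℝ, γ (t + T) = γ t
  minimal : ∀ s ∈ Ioo 0 T, γ s ≠ γ 0

/-- the characteristic exponent of a closed orbit: the integral of the divergence over a period -/
noncomputable def exponent (P Q : MvPolynomial (Fin 2) ℝ) (γ : ℝ → ℝ × ℝ) (T : ℝ) : ℝ :=
  ∫ t in (0:ℝ)..T, (MvPolynomial.eval ![(γ t).1, (γ t).2] (MvPolynomial.pderiv 0 P) +
    MvPolynomial.eval ![(γ t).1, (γ t).2] (MvPolynomial.pderiv 1 Q))

lemma shear_eq (P Q : MvPolynomial (Fin 2) ℝ) (θ u : ℝ)
    (hD : 0 < angular P Q (Real.exp u * Real.cos θ, Real.exp u * Real.sin θ)) :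
    shear P Q (Real.exp u * Real.cos θ, Real.exp u * Real.sin θ) =
      Ph (Ar P Q θ) (Br P Q θ) u := by
  have hr := Real.exp_pos u
  set r := Real.exp u with hrdef
  have hA : ∀ s : ℝ, radial P Q (s * (r * Real.cos θ), s * (r * Real.sin θ)) =
      (s * r) * (Ar P Q θ).eval (s * r) := by
    intro s
    rw [eval_Ar]
    unfold radial ev
    simp only [← mul_assoc]
    ring
  have hB : ∀ s : ℝ, angular P Q (s * (r * Real.cos θ), s * (r * Real.sin θ)) =
      (s * r) * (Br P Q θ).eval (s * r) := by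
    intro s
    rw [eval_Br]
    unfold angular ev
    simp only [← mul_assoc]
    ring
  have hB1 : (Br P Q θ).eval r ≠ 0 := by
    have h1 := hB 1
    rw [one_mul, one_mul, one_mul] at h1
    rw [h1] at hD
    exact (pos_of_mul_pos_right hD hr.le).ne'
  unfold shear
  have he : (fun s : ℝ => radial P Q (s * (r * Real.cos θ), s * (r * Real.sin θ)) /
      angular P Q (s * (r * Real.cos θ), s * (r * Real.sin θ))) =ᶠ[nhds 1]
      fun s => (Ar P Q θ).eval (s * r) / (Br P Q θ).eval (s * r) := by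
    filter_upwards [lt_mem_nhds (show (0:ℝ) < 1 by norm_num)] with s hs
    rw [hA, hB, mul_div_mul_left _ _ (mul_pos hs hr).ne']
  simp only
  rw [he.deriv_eq]
  have hm : HasDerivAt (fun s : ℝ => s * r) r 1 := by
    simpa using (hasDerivAt_id (1:ℝ)).mul_const r
  have h1 := ((Ar P Q θ).hasDerivAt (1 * r)).comp 1 hm
  have h2 := ((Br P Q θ).hasDerivAt (1 * r)).comp 1 hm
  have h3 := h1.div h2 (by simpa using hB1)
  have h4 : HasDerivAt (fun s : ℝ => (Ar P Q θ).eval (s * r) / (Br P Q θ).eval (s * r)) _ 1 := h3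
  rw [h4.deriv]
  simp only [Function.comp_apply, one_mul]
  unfold Ph
  rw [← hrdef]
  congr 1
  ring

/-- **The total hyperbolicity of the closed orbits in a rotating region.**

Let `P`, `Q` be polynomials of degree at most `n`, and let `S` be a set in the plane which contains
with two points of a ray from the origin the segment between them (for instance an annulus), in
which the polar angle of the system `x' = P, y' = Q` increases. Assume that the shear is at most
`M θ` in absolute value on the part of `S` on the ray of angle `θ`. Then for each nonempty finite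
family of different closed orbits in `S`, with exponents `h i`, the sum of the `|h i|` is at most
`(2 n + 1) ∫ M`, and at most `(2 (n - 1) + 1) ∫ M` if the origin is an equilibrium. In particular
the number of closed orbits in `S` with `|h i| ≥ ε` is at most `(2 n + 1) ∫ M / ε`. -/
theorem result (n : ℕ) (P Q : MvPolynomial (Fin 2) ℝ) (hP : P.totalDegree ≤ n)
    (hQ : Q.totalDegree ≤ n) (S : Set (ℝ × ℝ))
    (hS : ∀ z ∈ S, ∀ s t : ℝ, 1 ≤ s → s ≤ t → t • z ∈ S → s • z ∈ S)
    (hD : ∀ z ∈ S, 0 < angular P Q z) (M : ℝ → ℝ)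
    (hMi : IntervalIntegrable M volume 0 (2 * Real.pi))
    (hM : ∀ θ ∈ Icc 0 (2 * Real.pi), ∀ r : ℝ, 0 < r → (r * Real.cos θ, r * Real.sin θ) ∈ S →
      |shear P Q (r * Real.cos θ, r * Real.sin θ)| ≤ M θ)
    {ι : Type} [Fintype ι] [Nonempty ι] (γ : ι → ℝ → ℝ × ℝ) (T : ι → ℝ)
    (hγ : ∀ i, ClosedOrbit P Q (γ i) (T i)) (hin : ∀ i t, γ i t ∈ S)
    (hne : ∀ i j, i ≠ j → range (γ i) ≠ range (γ j)) :
    ∑ i, |exponent P Q (γ i) (T i)| ≤ (2 * n + 1) * ∫ θ in (0:ℝ)..(2 * Real.pi), M θ ∧
    (MvPolynomial.eval ![0, 0] P = 0 → MvPolynomial.eval ![0, 0] Q = 0 →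
      ∑ i, |exponent P Q (γ i) (T i)| ≤
        (2 * (n - 1 : ℕ) + 1) * ∫ θ in (0:ℝ)..(2 * Real.pi), M θ) ∧
    ∀ ε : ℝ, 0 < ε → (∀ i, ε ≤ |exponent P Q (γ i) (T i)|) →
      (Fintype.card ι : ℝ) ≤ (2 * n + 1) * (∫ θ in (0:ℝ)..(2 * Real.pi), M θ) / ε := by
  have hfam : ∀ d : ℕ, (∀ θ, RayBound (Ar P Q θ) (Br P Q θ) d) →
      ∑ i, |exponent P Q (γ i) (T i)| ≤ (2 * d + 1) * ∫ θ in (0:ℝ)..(2 * Real.pi), M θ := by
    intro d hd
    refine family (P := P) (Q := Q) hd γ T
      (fun i => ⟨(hγ i).pos, (hγ i).solution, (hγ i).periodic, (hγ i).minimal⟩) hne S ?_ hD M hMi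
      ?_ hin
    · intro θ u₁ u u₂ h1 h2 hm1 hm2
      have e1 : ∀ v : ℝ, Real.exp (v - u₁) • (Real.exp u₁ * Real.cos θ, Real.exp u₁ * Real.sin θ) =
          (Real.exp v * Real.cos θ, Real.exp v * Real.sin θ) := by
        intro v
        rw [Prod.smul_mk, smul_eq_mul, smul_eq_mul, ← mul_assoc, ← mul_assoc, ← Real.exp_add,
          sub_add_cancel]
      have h3 := hS _ hm1 (Real.exp (u - u₁)) (Real.exp (u₂ - u₁))
        (Real.one_le_exp (by linarith)) (Real.exp_le_exp.2 (by linarith)) (by rw [e1]; exact hm2)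
      rwa [e1] at h3
    · intro θ hθ u hu
      rw [← shear_eq P Q θ u (hD _ hu)]
      exact hM θ hθ _ (Real.exp_pos u) hu
  have h1 := hfam n fun θ => rayBound (natDegree_Ar hP hQ θ) (natDegree_Br hP hQ θ)
  refine ⟨h1, ?_, ?_⟩
  · intro hP0 hQ0
    have eP : ev P 0 0 = 0 := hP0
    have eQ : ev Q 0 0 = 0 := hQ0
    refine hfam (n - 1) fun θ => rayBound_zero (natDegree_Ar hP hQ θ) (natDegree_Br hP hQ θ) ?_ ?_
    · rw [Polynomial.coeff_zero_eq_eval_zero, eval_Ar, zero_mul, zero_mul, eP, eQ]; ring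
    · rw [Polynomial.coeff_zero_eq_eval_zero, eval_Br, zero_mul, zero_mul, eP, eQ]; ring
  · intro ε hε hh
    rw [le_div_iff₀ hε]
    refine le_trans ?_ h1
    have h2 := Finset.card_nsmul_le_sum Finset.univ (fun i => |exponent P Q (γ i) (T i)|) ε
      fun i _ => hh i
    rwa [nsmul_eq_mul, Finset.card_univ] at h2

end Pool.Agent.Results.MP_95e7ec_an.TotalHyperbolicity
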